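import Mathlib
import Pool.Agent.CCS.Stmts
import Pool.Agent.CCS.AbS
import Pool.Agent.CCS.Art
import Pool.Agent.CCS.Avd
import Pool.Agent.CCS.Avg
import Pool.Agent.CCS.BQ
import Pool.Agent.CCS.Cnt
import Pool.Agent.CCS.CntG
import Pool.Agent.CCS.Conj
import Pool.Agent.CCS.Cop
import Pool.Agent.CCS.Cov
import Pool.Agent.CCS.Cpl
import Pool.Agent.CCS.Dec
import Pool.Agent.CCS.Eta
import Pool.Agent.CCS.FAb
import Pool.Agent.CCS.FF
import Pool.Agent.CCS.Fin
import Pool.Agent.CCS.Fix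
import Pool.Agent.CCS.Gas
import Pool.Agent.CCS.HH
import Pool.Agent.CCS.Hil
import Pool.Agent.CCS.KA0
import Pool.Agent.CCS.KAx
import Pool.Agent.CCS.MC
import Pool.Agent.CCS.Mov
import Pool.Agent.CCS.Mt
import Pool.Agent.CCS.NM
import Pool.Agent.CCS.Nil
import Pool.Agent.CCS.Pow
import Pool.Agent.CCS.Prx
import Pool.Agent.CCS.PV
import Pool.Agent.CCS.QV
import Pool.Agent.CCS.RDx
import Pool.Agent.CCS.Rho0
import Pool.Agent.CCS.Rp
import Pool.Agent.CCS.SS
import Pool.Agent.CCS.Sc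
import Pool.Agent.CCS.Sur
import Pool.Agent.CCS.Tau
import Pool.Agent.CCS.Tn
import Pool.Agent.CCS.Tor
import Pool.Agent.CCS.Tr
import Pool.Agent.CCS.VLG
import Pool.Agent.CCS.VLx
import Pool.Agent.CCS.Vm

set_option autoImplicit false

/-!
# MP_771bc4_al: at most `3 σ(G)` primes divide the class sizes, for all groups of derived length at most 3

`F` and `M` are normal subgroups of the finite group `G`, `F` is nilpotent, `M` is abelian modulo `F`, and either `G ⧸ M` is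
nilpotent or, more generally, every Sylow subgroup `P` of `G` with `N_G(P) ≤ C_G(P)` is central modulo `M`.
(Derived length at most 3: `F = G''`, `M = G'`.)
-/

namespace Pool.Agent.Results.MP_771bc4_al.DerivedLengthThree

open Pool.Agent.CCS

theorem result (G : Type) [Group G] [Finite G] (F M : Subgroup G) [F.Normal] [M.Normal]
    (hF : Group.IsNilpotent F) (hM : ∀ a ∈ M, ∀ b ∈ M, a * b * a⁻¹ * b⁻¹ ∈ F)
    (hG : Group.IsNilpotent (G ⧸ M) ∨
      ∀ p : ℕ, p.Prime → ∀ P : Sylow p G,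
        (∀ g : G, (∀ y ∈ P, g * y * g⁻¹ ∈ P) → ∀ y ∈ P, g * y = y * g) →
        ∀ y ∈ P, ∀ g : G, y * g * y⁻¹ * g⁻¹ ∈ M) :
    ∃ g : G, Set.ncard {p : ℕ | ∃ x : G, p ∈ (Nat.card {h : G // IsConj x h}).primeFactors}
      ≤ 3 * (Nat.card {h : G // IsConj g h}).primeFactors.card := by
  have hVL : St_VL := thm_VLx thm_RDx thm_Prx (thm_Tr thm_Prx) (thm_Mov thm_Prx) thm_Sc (thm_Eta thm_Hil)
    (thm_Tor thm_Prx) thm_Cov (thm_Rp (thm_Fix thm_Prx thm_Art) thm_Sur) thm_Pow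
  have hCntG : St_CntG := thm_CntG thm_Cnt thm_Conj
  have hMC : St_MC := thm_MC (thm_Rho0 thm_Avd) (thm_KAx thm_KA0) thm_NM (thm_FF thm_Gas thm_FAb) thm_FAb
    (thm_Dec thm_Cpl thm_Vm thm_SS) thm_PV thm_Tau thm_BQ (thm_QV thm_Cop) thm_Mt thm_Tn thm_AbS thm_HH
    (thm_VLG hVL hCntG thm_Conj)
  obtain ⟨h1, h2, -⟩ := thm_Fin (thm_Avg thm_Avd) hMC thm_Nil
  rcases hG with hG | hG
  · exact h2 G F M hF hM hG
  · exact h1 G F M inferInstance inferInstance hF hM fun p hp hB P y hy g => hG p hp P (hB P) y hy g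

end Pool.Agent.Results.MP_771bc4_al.DerivedLengthThree
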